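import Pool.Agent.Helper38.IA.St

/-!
# Project IA, module L1: the Laplacian of a rigid weighted graph is onto the vectors of sum 0
-/

set_option autoImplicit false

namespace Pool.Agent.Helper30.IA38

open Finset Pool.Agent.Helper93.IA Pool.Agent.Helper38.IA

/-- The Laplacian plus the total sum, as a linear map. -/
private noncomputable def T {V : Type} [Fintype V] (W : V → V → ℝ) : (V → ℝ) →ₗ[ℝ] (V → ℝ) where
  toFun p := fun v => Lap W p v + ∑ y, p y
  map_add' p q := by
    funext v
    simp only [Pi.add_apply, Lap]
    rw [Finset.sum_add_distrib, show (∑ y, W v y * (p v + q v - (p y + q y)))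
      = ∑ y, W v y * (p v - p y) + ∑ y, W v y * (q v - q y) from by
        rw [← Finset.sum_add_distrib]
        exact Finset.sum_congr rfl fun y _ => by ring]
    ring
  map_smul' c p := by
    funext v
    simp only [Pi.smul_apply, smul_eq_mul, RingHom.id_apply, Lap]
    rw [mul_add, Finset.mul_sum, Finset.mul_sum]
    congr 1
    exact Finset.sum_congr rfl fun y _ => by ring

private theorem sum_lap {V : Type} [Fintype V] (W : V → V → ℝ) (hW : ∀ v y, W v y = W y v)
    (p : V → ℝ) : ∑ v, Lap W p v = 0 := by
  unfold Lap
  have h : ∑ v, ∑ y, W v y * (p v - p y) = -∑ v, ∑ y, W v y * (p v - p y) := by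
    conv_lhs => rw [Finset.sum_comm]
    rw [← Finset.sum_neg_distrib]
    refine Finset.sum_congr rfl fun v _ => ?_
    rw [← Finset.sum_neg_distrib]
    refine Finset.sum_congr rfl fun y _ => ?_
    rw [hW y v]
    ring
  linarith

private theorem sum_of_T {V : Type} [Fintype V] [Nonempty V] (W : V → V → ℝ)
    (hW : ∀ v y, W v y = W y v) (p b : V → ℝ) (hT : T W p = b) (hb : ∑ v, b v = 0) :
    ∑ y, p y = 0 := by
  have h1 : ∑ v, (T W p) v = (Fintype.card V : ℝ) * ∑ y, p y := by
    show ∑ v, (Lap W p v + ∑ y, p y) = _
    rw [Finset.sum_add_distrib, sum_lap W hW p, zero_add, Finset.sum_const, Finset.card_univ,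
      nsmul_eq_mul]
  rw [hT, hb] at h1
  have h2 : (Fintype.card V : ℝ) ≠ 0 := by
    have := Fintype.card_pos (α := V)
    positivity
  rcases mul_eq_zero.mp h1.symm with h | h
  · exact absurd h h2
  · exact h

theorem hL1 : StL1 := by
  intro V _ _ W b hW hc hb
  have hinj : Function.Injective (T W) := by
    rw [← LinearMap.ker_eq_bot, LinearMap.ker_eq_bot']
    intro p hp
    have hs : ∑ y, p y = 0 := sum_of_T W hW p 0 hp (by simp)
    have hL : ∀ v, Lap W p v = 0 := by
      intro v
      have := congrFun hp v
      change Lap W p v + ∑ y, p y = 0 at this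
      rw [hs, add_zero] at this
      exact this
    have hcst := hc p hL
    funext v
    have h3 : (Fintype.card V : ℝ) * p v = 0 := by
      rw [← hs, Finset.sum_congr rfl fun y _ => hcst y v, Finset.sum_const, Finset.card_univ,
        nsmul_eq_mul]
    have h2 : (Fintype.card V : ℝ) ≠ 0 := by
      have := Fintype.card_pos (α := V)
      positivity
    rcases mul_eq_zero.mp h3 with h | h
    · exact absurd h h2
    · exact h
  have hsur : Function.Surjective (T W) := LinearMap.injective_iff_surjective.mp hinj
  obtain ⟨p, hp⟩ := hsur b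
  have hs : ∑ y, p y = 0 := sum_of_T W hW p b hp hb
  refine ⟨p, hs, fun v => ?_⟩
  have := congrFun hp v
  change Lap W p v + ∑ y, p y = b v at this
  rw [hs, add_zero] at this
  exact this

end Pool.Agent.Helper30.IA38
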